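import Pool.Agent.Helper69.RF.Bas

/-!
# Project RF (MP_e74dc5_nt), module PAR: Parseval identity for the conjugates
-/

set_option autoImplicit false

namespace Pool.Agent.Helper44.RF

open Pool.Agent.Helper69.RF Helper62.Weber Polynomial

/-- the polynomial with value `2 cos (k t)` at `2 cos t` -/
noncomputable def Dk : ℕ → ℚ[X]
  | 0 => 2
  | 1 => X
  | (k + 2) => X * Dk (k + 1) - Dk k

theorem aeval_Dk (n j : ℕ) : ∀ k : ℕ, aeval (cR n j) (Dk k) = cR n (j * k) ∧
    aeval (cR n j) (Dk (k + 1)) = cR n (j * (k + 1)) := by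
  intro k
  induction k with
  | zero =>
    refine ⟨?_, ?_⟩
    · rw [Dk, Nat.mul_zero, cR_zero]
      exact map_ofNat _ 2
    · rw [Dk, aeval_X, zero_add, Nat.mul_one]
  | succ k ih =>
    refine ⟨ih.2, ?_⟩
    rw [Dk, map_sub, map_mul, aeval_X, ih.1, ih.2]
    have h1 := cR_mul n (j * k) j
    have h2 : j * k + j = j * (k + 1) := by ring
    have h3 : j * k + 2 * j = j * (k + 1 + 1) := by ring
    rw [h2, h3] at h1
    linarith

theorem conj_sum (n : ℕ) (a : ℕ → ℤ) (p : ℚ[X])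
    (h : aeval (XR n) p = a 0 + ∑ k ∈ Finset.Ico 1 (2 ^ n), (a k : ℝ) * cR n k) {j : ℕ} (hj : Odd j) :
    aeval (cR n j) p = a 0 + ∑ k ∈ Finset.Ico 1 (2 ^ n), (a k : ℝ) * cR n (j * k) := by
  have key : ∀ i : ℕ, aeval (cR n i) ((a 0 : ℚ[X]) + ∑ k ∈ Finset.Ico 1 (2 ^ n), (a k : ℚ[X]) * Dk k) =
      a 0 + ∑ k ∈ Finset.Ico 1 (2 ^ n), (a k : ℝ) * cR n (i * k) := by
    intro i
    rw [map_add, map_sum, map_intCast]
    congr 1
    apply Finset.sum_congr rfl
    intro k _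
    rw [map_mul, map_intCast, (aeval_Dk n i k).1]
  have h1 : aeval (XR n) (p - ((a 0 : ℚ[X]) + ∑ k ∈ Finset.Ico 1 (2 ^ n), (a k : ℚ[X]) * Dk k)) = 0 := by
    rw [map_sub, h, ← cR_one, key 1]
    simp only [one_mul, sub_self]
  have h2 := conj_zero hj _ h1
  rw [map_sub, key j] at h2
  linarith

theorem cR_sgn (n k m : ℕ) : cR n (k + 2 ^ (n + 1) * m) = (-1) ^ m * cR n k := by
  induction m with
  | zero => rw [Nat.mul_zero, add_zero, pow_zero, one_mul]
  | succ m ih =>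
    have h : k + 2 ^ (n + 1) * (m + 1) = k + 2 ^ (n + 1) * m + 2 ^ (n + 1) := by ring
    rw [h, cR_half, ih, pow_succ]
    ring

theorem sin_sum (t : ℝ) (m : ℕ) :
    Real.sin t * ∑ i ∈ Finset.range m, 2 * Real.cos ((2 * i + 1) * t) = Real.sin (2 * m * t) := by
  induction m with
  | zero => simp
  | succ m ih =>
    rw [Finset.sum_range_succ, mul_add, ih]
    have e1 : 2 * ((m + 1 : ℕ) : ℝ) * t = (2 * m + 1) * t + t := by push_cast; ring
    have e2 : 2 * (m : ℝ) * t = (2 * m + 1) * t - t := by ring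
    rw [e1, e2, Real.sin_add, Real.sin_sub]
    ring

theorem S_zero (n e : ℕ) (h0 : 0 < e) (h1 : e < 2 ^ (n + 1)) :
    ∑ i ∈ Finset.range (2 ^ n), cR n ((2 * i + 1) * e) = 0 := by
  have hpi := Real.pi_pos
  have hp : (0 : ℝ) < 2 ^ (n + 2) := by positivity
  have h2 := sin_sum (2 * Real.pi * e / 2 ^ (n + 2)) (2 ^ n)
  have e1 : 2 * ((2 ^ n : ℕ) : ℝ) * (2 * Real.pi * e / 2 ^ (n + 2)) = e * Real.pi := by
    push_cast
    field_simp
    ring
  rw [e1, Real.sin_nat_mul_pi] at h2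
  have h3 : ∑ i ∈ Finset.range (2 ^ n), cR n ((2 * i + 1) * e) =
      ∑ i ∈ Finset.range (2 ^ n), 2 * Real.cos ((2 * (i : ℝ) + 1) * (2 * Real.pi * e / 2 ^ (n + 2))) := by
    apply Finset.sum_congr rfl
    intro i _
    rw [cR]
    congr 2
    push_cast
    ring
  rw [h3]
  have he0 : (0 : ℝ) < e := by exact_mod_cast h0
  have he1 : (e : ℝ) < 2 ^ (n + 1) := by exact_mod_cast h1
  have hs : 0 < Real.sin (2 * Real.pi * e / 2 ^ (n + 2)) := by
    apply Real.sin_pos_of_pos_of_lt_pi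
    · positivity
    · rw [div_lt_iff₀ hp]
      have : (2 : ℝ) ^ (n + 2) = 2 * 2 ^ (n + 1) := by ring
      rw [this]
      nlinarith
  exact (mul_eq_zero.1 h2).resolve_left hs.ne'

theorem S_at_zero (n : ℕ) : ∑ i ∈ Finset.range (2 ^ n), cR n ((2 * i + 1) * 0) = 2 * 2 ^ n := by
  simp only [Nat.mul_zero, cR_zero, Finset.sum_const, Finset.card_range, nsmul_eq_mul]
  push_cast
  ring

theorem prod_cR (n j k l : ℕ) (h : l ≤ k) :
    cR n (j * k) * cR n (j * l) = cR n (j * (k + l)) + cR n (j * (k - l)) := by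
  obtain ⟨d, rfl⟩ := Nat.exists_eq_add_of_le h
  have h1 := cR_mul n (j * d) (j * l)
  have e1 : j * d + j * l = j * (l + d) := by ring
  have e2 : j * d + 2 * (j * l) = j * (l + d + l) := by ring
  rw [e1, e2] at h1
  rw [h1, Nat.add_sub_cancel_left]

theorem orth_ne (n k l : ℕ) (hk : k < 2 ^ n) (h : l < k) :
    ∑ i ∈ Finset.range (2 ^ n), cR n ((2 * i + 1) * k) * cR n ((2 * i + 1) * l) = 0 := by
  have h1 : ∀ i ∈ Finset.range (2 ^ n), cR n ((2 * i + 1) * k) * cR n ((2 * i + 1) * l) =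
      cR n ((2 * i + 1) * (k + l)) + cR n ((2 * i + 1) * (k - l)) :=
    fun i _ => prod_cR n _ k l h.le
  have h2 : (2 : ℕ) ^ (n + 1) = 2 * 2 ^ n := by ring
  rw [Finset.sum_congr rfl h1, Finset.sum_add_distrib, S_zero n _ (by omega) (by omega),
    S_zero n _ (by omega) (by omega), add_zero]

theorem orth_eq (n k : ℕ) (hk : k < 2 ^ n) (h : 0 < k) :
    ∑ i ∈ Finset.range (2 ^ n), cR n ((2 * i + 1) * k) * cR n ((2 * i + 1) * k) = 2 * 2 ^ n := by
  have h1 : ∀ i ∈ Finset.range (2 ^ n), cR n ((2 * i + 1) * k) * cR n ((2 * i + 1) * k) =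
      cR n ((2 * i + 1) * (k + k)) + cR n ((2 * i + 1) * 0) := by
    intro i _
    rw [prod_cR n _ k k le_rfl, Nat.sub_self]
  have h2 : (2 : ℕ) ^ (n + 1) = 2 * 2 ^ n := by ring
  rw [Finset.sum_congr rfl h1, Finset.sum_add_distrib, S_zero n _ (by omega) (by omega),
    S_at_zero, zero_add]

theorem cPAR : PAR := by
  intro n a p h
  refine ⟨?_, ?_⟩
  · set N : ℕ := 2 ^ n with hN
    have hNpos : 0 < N := by positivity
    have hc : ∀ i : ℕ, aeval (cR n (2 * i + 1)) p =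
        a 0 + ∑ k ∈ Finset.Ico 1 N, (a k : ℝ) * cR n ((2 * i + 1) * k) :=
      fun i => conj_sum n a p h ⟨i, rfl⟩
    have hsq : ∀ i : ℕ, (aeval (cR n (2 * i + 1)) p) ^ 2 =
        (a 0 : ℝ) ^ 2 + 2 * (a 0 : ℝ) * ∑ k ∈ Finset.Ico 1 N, (a k : ℝ) * cR n ((2 * i + 1) * k) +
        ∑ k ∈ Finset.Ico 1 N, ∑ l ∈ Finset.Ico 1 N, ((a k : ℝ) * (a l : ℝ)) *
          (cR n ((2 * i + 1) * k) * cR n ((2 * i + 1) * l)) := by
      intro i
      have h1 : ∑ k ∈ Finset.Ico 1 N, ∑ l ∈ Finset.Ico 1 N, ((a k : ℝ) * (a l : ℝ)) *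
          (cR n ((2 * i + 1) * k) * cR n ((2 * i + 1) * l)) =
          (∑ k ∈ Finset.Ico 1 N, (a k : ℝ) * cR n ((2 * i + 1) * k)) *
          (∑ k ∈ Finset.Ico 1 N, (a k : ℝ) * cR n ((2 * i + 1) * k)) := by
        rw [Finset.sum_mul_sum]
        apply Finset.sum_congr rfl
        intro k _
        apply Finset.sum_congr rfl
        intro l _
        ring
      rw [h1, hc i]
      ring
    have hA : ∑ i ∈ Finset.range N, 2 * (a 0 : ℝ) * ∑ k ∈ Finset.Ico 1 N, (a k : ℝ) * cR n ((2 * i + 1) * k) = 0 := by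
      rw [← Finset.mul_sum, Finset.sum_comm]
      have : ∑ k ∈ Finset.Ico 1 N, ∑ i ∈ Finset.range N, (a k : ℝ) * cR n ((2 * i + 1) * k) = 0 := by
        apply Finset.sum_eq_zero
        intro k hk
        rw [Finset.mem_Ico] at hk
        have h2 : (2 : ℕ) ^ (n + 1) = 2 * 2 ^ n := by ring
        rw [← Finset.mul_sum, S_zero n k (by omega) (by omega), mul_zero]
      rw [this, mul_zero]
    have hBsum : ∑ i ∈ Finset.range N, ∑ k ∈ Finset.Ico 1 N, ∑ l ∈ Finset.Ico 1 N, ((a k : ℝ) * (a l : ℝ)) *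
          (cR n ((2 * i + 1) * k) * cR n ((2 * i + 1) * l)) =
        ∑ k ∈ Finset.Ico 1 N, (a k : ℝ) ^ 2 * (2 * 2 ^ n) := by
      rw [Finset.sum_comm]
      apply Finset.sum_congr rfl
      intro k hk
      rw [Finset.sum_comm]
      have hk2 := Finset.mem_Ico.1 hk
      rw [Finset.sum_eq_single k]
      · rw [← Finset.mul_sum, orth_eq n k hk2.2 (by omega)]
        ring
      · intro l hl hlk
        have hl2 := Finset.mem_Ico.1 hl
        rw [← Finset.mul_sum]
        rcases Nat.lt_or_gt_of_ne hlk with h3 | h3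
        · rw [orth_ne n k l hk2.2 h3, mul_zero]
        · have h4 := orth_ne n l k hl2.2 h3
          have h5 : ∑ i ∈ Finset.range N, cR n ((2 * i + 1) * k) * cR n ((2 * i + 1) * l) = 0 := by
            rw [← h4]
            apply Finset.sum_congr rfl
            intro i _
            rw [mul_comm]
          rw [h5, mul_zero]
      · intro h3
        exact absurd hk h3
    rw [Finset.sum_congr rfl (fun i _ => hsq i), Finset.sum_add_distrib, Finset.sum_add_distrib, hA,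
      hBsum, Finset.sum_const, Finset.card_range, nsmul_eq_mul, ← Finset.sum_mul, hN]
    push_cast
    ring
  · have h1 := conj_sum n a p h (odd_half n)
    rw [neg_XR, h1]
    congr 1
    apply Finset.sum_congr rfl
    intro k _
    have h2 : (1 + 2 ^ (n + 1)) * k = k + 2 ^ (n + 1) * k := by ring
    rw [h2, cR_sgn]
    ring

end Pool.Agent.Helper44.RF
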